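import Pool.Agent.U469.DE.S

/-!
# Project DE, job Odd: odd functions
-/

set_option autoImplicit false

open MeasureTheory Filter Topology Complex
open scoped ComplexConjugate InnerProductSpace

namespace Pool.Agent.U473.DE

open Pool.Agent.U469.DE

/-- the derivative of the square of the norm is controlled -/
lemma deriv_bound (a b : ℂ) : |2 * ⟪a, b⟫_ℝ| ≤ 2 * (‖b‖ ^ 2 + ‖a‖ ^ 2 / 4) := by
  rw [abs_mul, abs_two]
  have h1 := abs_real_inner_le_norm a b
  nlinarith [sq_nonneg (‖b‖ - ‖a‖ / 2)]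

/-- one variable: a function with `f 0 = 0` at two symmetric points -/
lemma slice (f f' : ℝ → ℂ) (hf : ∀ x, HasDerivAt f (f' x) x) (hf'c : Continuous f') (h0 : f 0 = 0)
    (hs : HasCompactSupport f) (hs' : HasCompactSupport f') (a : ℝ) (ha : 0 ≤ a) :
    ‖f a‖ ^ 2 + ‖f (-a)‖ ^ 2 ≤ ∫ x : ℝ, (‖f' x‖ ^ 2 + ‖f x‖ ^ 2 / 4) := by
  have hfc : Continuous f := continuous_iff_continuousAt.2 fun x => (hf x).continuousAt
  set u' : ℝ → ℝ := fun x => 2 * ⟪f x, f' x⟫_ℝ with hu'
  have hu : ∀ x, HasDerivAt (fun x => ‖f x‖ ^ 2) (u' x) x := fun x => (hf x).norm_sq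
  have hu'c : Continuous u' := by
    rw [hu']; exact continuous_const.mul (hfc.inner hf'c)
  set h : ℝ → ℝ := fun x => ‖f' x‖ ^ 2 + ‖f x‖ ^ 2 / 4 with hh
  have hhc : Continuous h := by
    rw [hh]; fun_prop
  have hh0 : ∀ x, 0 ≤ h x := fun x => by rw [hh]; positivity
  have hle : ∀ x, |u' x| ≤ 2 * h x := fun x => deriv_bound _ _
  -- a large radius
  obtain ⟨R0, hR0⟩ := hs.isBounded.subset_closedBall (0 : ℝ)
  set R : ℝ := max R0 a + 1 with hR
  have hRa : a ≤ R := by rw [hR]; linarith [le_max_right R0 a]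
  have hRR0 : R0 < R := by rw [hR]; linarith [le_max_left R0 a]
  have hR00 : 0 ≤ R := ha.trans hRa
  have hz : ∀ x, R ≤ |x| → f x = 0 := by
    intro x hx
    by_contra hne
    have h1 : x ∈ tsupport f := subset_tsupport f hne
    have h2 := hR0 h1
    rw [Metric.mem_closedBall, dist_zero_right, Real.norm_eq_abs] at h2
    linarith
  have hfR : f R = 0 := hz R (le_abs_self R)
  have hfR' : f (-R) = 0 := hz (-R) (by rw [abs_neg]; exact le_abs_self R)
  have hint : ∀ x y : ℝ, ∫ t in x..y, u' t = ‖f y‖ ^ 2 - ‖f x‖ ^ 2 := fun x y =>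
    intervalIntegral.integral_eq_sub_of_hasDerivAt (fun t _ => hu t) (hu'c.intervalIntegrable _ _)
  have hb : ∀ x y : ℝ, x ≤ y → |‖f y‖ ^ 2 - ‖f x‖ ^ 2| ≤ 2 * ∫ t in x..y, h t := by
    intro x y hxy
    rw [← hint x y]
    calc |∫ t in x..y, u' t| ≤ ∫ t in x..y, |u' t| := by
          have := intervalIntegral.norm_integral_le_integral_norm (f := u') (μ := volume) hxy
          simpa [Real.norm_eq_abs] using this
      _ ≤ ∫ t in x..y, 2 * h t := by
          apply intervalIntegral.integral_mono_on hxy (hu'c.abs.intervalIntegrable _ _)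
            ((continuous_const.mul hhc).intervalIntegrable _ _)
          intro t _
          exact hle t
      _ = 2 * ∫ t in x..y, h t := by
          rw [intervalIntegral.integral_const_mul]
  have h1 := hb 0 a ha
  have h2 := hb a R hRa
  have h3 := hb (-R) (-a) (by linarith)
  have h4 := hb (-a) 0 (by linarith)
  rw [h0] at h1 h4
  rw [hfR] at h2
  rw [hfR'] at h3
  simp only [norm_zero, ne_eq, OfNat.ofNat_ne_zero, not_false_eq_true, zero_pow, sub_zero, zero_sub, abs_neg] at h1 h2 h3 h4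
  have e1 := le_abs_self (‖f a‖ ^ 2)
  have e2 := le_abs_self (‖f (-a)‖ ^ 2)
  have hii : ∀ x y : ℝ, IntervalIntegrable h volume x y := fun x y => hhc.intervalIntegrable _ _
  have hadd1 : (∫ t in (-R)..(-a), h t) + ∫ t in (-a)..0, h t = ∫ t in (-R)..0, h t :=
    intervalIntegral.integral_add_adjacent_intervals (hii _ _) (hii _ _)
  have hadd2 : (∫ t in (0 : ℝ)..a, h t) + ∫ t in a..R, h t = ∫ t in (0 : ℝ)..R, h t :=
    intervalIntegral.integral_add_adjacent_intervals (hii _ _) (hii _ _)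
  have hadd3 : (∫ t in (-R)..0, h t) + ∫ t in (0 : ℝ)..R, h t = ∫ t in (-R)..R, h t :=
    intervalIntegral.integral_add_adjacent_intervals (hii _ _) (hii _ _)
  have hcs : HasCompactSupport h := by
    have a1 : HasCompactSupport fun x => ‖f' x‖ ^ 2 := hs'.comp_left (g := fun z : ℂ => ‖z‖ ^ 2) (by simp)
    have a2 : HasCompactSupport fun x => ‖f x‖ ^ 2 / 4 := hs.comp_left (g := fun z : ℂ => ‖z‖ ^ 2 / 4) (by simp)
    exact a1.add a2
  have hI : Integrable h volume := hhc.integrable_of_hasCompactSupport hcs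
  have hfin : ∫ t in (-R)..R, h t ≤ ∫ x : ℝ, h x := by
    rw [intervalIntegral.integral_of_le (by linarith)]
    exact setIntegral_le_integral hI (ae_of_all _ hh0)
  have q1 : (2 : ℝ) * (∫ t in (-R)..(-a), h t) + 2 * (∫ t in (-a)..0, h t) = 2 * ∫ t in (-R)..0, h t := by
    rw [← hadd1]; ring
  linarith

lemma slice_deriv (φ : ℝ × ℝ → ℂ) (hφ : ContDiff ℝ 1 φ) (y x : ℝ) :
    HasDerivAt (fun x => φ (x, y)) (dX φ (x, y)) x := by
  have h1 : HasFDerivAt φ (fderiv ℝ φ (x, y)) (x, y) :=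
    (hφ.differentiable (by norm_num) (x, y)).hasFDerivAt
  have h2 : HasDerivAt (fun x : ℝ => (x, y)) ((1 : ℝ), (0 : ℝ)) x :=
    (hasDerivAt_id x).prodMk (hasDerivAt_const x y)
  exact h1.comp_hasDerivAt x h2

lemma dX_cont (φ : ℝ × ℝ → ℂ) (hφ : ContDiff ℝ 1 φ) : Continuous (dX φ) := by
  unfold dX
  exact (hφ.continuous_fderiv (by norm_num)).clm_apply continuous_const

lemma dX_cs (φ : ℝ × ℝ → ℂ) (hs : HasCompactSupport φ) : HasCompactSupport (dX φ) := by
  unfold dX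
  exact (hs.fderiv (𝕜 := ℝ)).comp_left (g := fun L : ℝ × ℝ →L[ℝ] ℂ => L (1, 0)) (by simp)

lemma slice_cs (ψ : ℝ × ℝ → ℂ) (hs : HasCompactSupport ψ) (y : ℝ) : HasCompactSupport fun x => ψ (x, y) := by
  refine HasCompactSupport.of_support_subset_isCompact (K := Prod.fst '' tsupport ψ) (hs.isCompact.image continuous_fst) ?_
  intro x hx
  exact ⟨(x, y), subset_tsupport ψ hx, rfl⟩

theorem walOdd (φ : ℝ × ℝ → ℂ) (hφ : φ ∈ Core) (ho : IsOdd φ) (t : ℝ) : wal t φ ≤ gX φ + nrm φ / 4 := by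
  obtain ⟨hc1, hcs⟩ := hφ
  have hφc : Continuous φ := hc1.continuous
  have hdc := dX_cont φ hc1
  have hds := dX_cs φ hcs
  set F : ℝ × ℝ → ℝ := fun p => ‖dX φ p‖ ^ 2 + ‖φ p‖ ^ 2 / 4 with hF
  have i1 : Integrable (fun p => ‖dX φ p‖ ^ 2) (volume : Measure (ℝ × ℝ)) :=
    (by fun_prop : Continuous fun p => ‖dX φ p‖ ^ 2).integrable_of_hasCompactSupport
      (hds.comp_left (g := fun z : ℂ => ‖z‖ ^ 2) (by simp))
  have i2 : Integrable (fun p => ‖φ p‖ ^ 2) (volume : Measure (ℝ × ℝ)) :=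
    (by fun_prop : Continuous fun p => ‖φ p‖ ^ 2).integrable_of_hasCompactSupport
      (hcs.comp_left (g := fun z : ℂ => ‖z‖ ^ 2) (by simp))
  have iF : Integrable F (volume : Measure (ℝ × ℝ)) := i1.add (i2.div_const 4)
  have hFint : ∫ p : ℝ × ℝ, F p = gX φ + nrm φ / 4 := by
    rw [hF]
    rw [integral_add i1 (i2.div_const 4), integral_div]
    rfl
  rw [Measure.volume_eq_prod] at iF
  have hG : Integrable (fun y => ∫ x : ℝ, F (x, y)) (volume : Measure ℝ) := iF.integral_prod_right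
  have hFub : ∫ p : ℝ × ℝ, F p = ∫ y : ℝ, ∫ x : ℝ, F (x, y) := by
    rw [Measure.volume_eq_prod]
    exact integral_prod_symm F iF
  have hF0 : ∀ p, 0 ≤ F p := fun p => by rw [hF]; positivity
  have hG0 : ∀ y, 0 ≤ ∫ x : ℝ, F (x, y) := fun y => integral_nonneg fun x => hF0 _
  have hpt : ∀ y, ‖φ (pos y, y)‖ ^ 2 + ‖φ (-pos y, y)‖ ^ 2 ≤ ∫ x : ℝ, F (x, y) := by
    intro y
    have hpos : 0 ≤ pos y := by
      unfold pos; split_ifs
      · norm_num [rad]
      · norm_num [del]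
    have h00 : φ (0, y) = 0 := by
      have h1 := ho 0 y
      rw [neg_zero] at h1
      have h2 : (2 : ℂ) * φ (0, y) = 0 := by linear_combination h1
      simpa using h2
    exact slice (fun x => φ (x, y)) (fun x => dX φ (x, y)) (slice_deriv φ hc1 y)
      (hdc.comp (by fun_prop)) h00 (slice_cs φ hcs y) (slice_cs (dX φ) hds y) (pos y) hpos
  rw [← hFint, hFub]
  unfold wal
  calc ∫ y in Set.Ioo (-ste) t, (‖φ (pos y, y)‖ ^ 2 + ‖φ (-pos y, y)‖ ^ 2)
      ≤ ∫ y in Set.Ioo (-ste) t, ∫ x : ℝ, F (x, y) := by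
        apply integral_mono_of_nonneg
        · exact ae_of_all _ fun y => by positivity
        · exact hG.integrableOn
        · exact ae_of_all _ hpt
    _ ≤ ∫ y : ℝ, ∫ x : ℝ, F (x, y) := setIntegral_le_integral hG (ae_of_all _ hG0)

theorem jobOdd (hH : JobHor) : JobOdd := by
  intro φ hφ ho t _
  have h1 := hH φ hφ t 2 (by norm_num)
  have h2 := walOdd φ hφ ho t
  unfold Q
  linarith

end Pool.Agent.U473.DE
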